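import Mathlib
import Pool.Agent.L7h32.OS.Stm

/-! Project OS, part SHN. -/

set_option autoImplicit false

open MvPolynomial

namespace Pool.Agent.L7h4.OS

open Pool.Agent.L7h17.OC Pool.Agent.L7h32.OS

theorem s_SHN : S_SHN := by
  intro F hF
  have hom : F.IsHomogeneous 8 := by
    rw [hF]
    apply MvPolynomial.IsHomogeneous.sum
    intro i hi
    have hi' : i < 9 := Finset.mem_range.mp hi
    have h1 : (C (cheb (1 / 2) i) * X 0 ^ i + C (cheb 0 i) * X 1 ^ i :
        MvPolynomial (Fin 3) ℝ).IsHomogeneous i := by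
      apply MvPolynomial.IsHomogeneous.add
      · exact MvPolynomial.isHomogeneous_C_mul_X_pow _ _ _
      · exact MvPolynomial.isHomogeneous_C_mul_X_pow _ _ _
    have h2 : (X 2 ^ (8 - i) : MvPolynomial (Fin 3) ℝ).IsHomogeneous (8 - i) :=
      MvPolynomial.isHomogeneous_X_pow _ _
    have h3 := h1.mul h2
    have e : i + (8 - i) = 8 := by omega
    rw [e] at h3
    exact h3
  have hE : F = C (5 / 2) * X 2 ^ 8 + C (-32) * (X 0 ^ 2 + X 1 ^ 2) * X 2 ^ 6 +
      C 160 * (X 0 ^ 4 + X 1 ^ 4) * X 2 ^ 4 + C (-256) * (X 0 ^ 6 + X 1 ^ 6) * X 2 ^ 2 +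
      C 128 * (X 0 ^ 8 + X 1 ^ 8) := by
    rw [hF]
    simp only [Finset.sum_range_succ, Finset.sum_range_zero, cheb]
    have e1 : (C (5 / 2) : MvPolynomial (Fin 3) ℝ) = C (1 + 1 / 2) + C (1 + 0) := by
      rw [← map_add]; norm_num
    rw [e1]
    simp only [map_zero]
    ring
  refine ⟨hom, ?_, ?_⟩
  · intro v hv hh
    obtain ⟨h, hd⟩ := hh
    have d0 := hd 0
    have d1 := hd 1
    rw [hE] at h d0 d1
    simp only [map_add, map_mul, map_pow, aeval_X, aeval_C, Derivation.leibniz, pderiv_C,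
      Derivation.leibniz_pow, pderiv_X, smul_eq_mul, map_zero] at h d0 d1
    have c1 : (algebraMap ℝ ℂ) (5 / 2) = 5 / 2 := by norm_num
    have c2 : (algebraMap ℝ ℂ) (-32) = -32 := by norm_num
    have c3 : (algebraMap ℝ ℂ) 160 = 160 := by norm_num
    have c4 : (algebraMap ℝ ℂ) (-256) = -256 := by norm_num
    have c5 : (algebraMap ℝ ℂ) 128 = 128 := by norm_num
    simp only [c1, c2, c3, c4, c5, Pi.single_apply] at h d0 d1
    simp at d0 d1
    generalize hx : v 0 = x at h d0 d1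
    generalize hy : v 1 = y at h d0 d1
    generalize hz : v 2 = z at h d0 d1
    have k0 : 1024 * x ^ 7 - 1536 * x ^ 5 * z ^ 2 + 640 * x ^ 3 * z ^ 4 - 64 * x * z ^ 6 = 0 := by
      linear_combination d0
    have k1 : 1024 * y ^ 7 - 1536 * y ^ 5 * z ^ 2 + 640 * y ^ 3 * z ^ 4 - 64 * y * z ^ 6 = 0 := by
      linear_combination d1
    by_cases hz0 : z = 0
    · subst hz0
      have hx0 : x = 0 := by
        have : x ^ 7 = 0 := by linear_combination k0 / 1024
        exact pow_eq_zero_iff (by norm_num) |>.mp this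
      have hy0 : y = 0 := by
        have : y ^ 7 = 0 := by linear_combination k1 / 1024
        exact pow_eq_zero_iff (by norm_num) |>.mp this
      apply hv
      funext i
      fin_cases i
      · exact hx.trans hx0
      · exact hy.trans hy0
      · exact hz
    · have key : ∀ t : ℂ, 1024 * t ^ 7 - 1536 * t ^ 5 * z ^ 2 + 640 * t ^ 3 * z ^ 4 -
          64 * t * z ^ 6 = 0 →
          (128 * t ^ 8 - 256 * t ^ 6 * z ^ 2 + 160 * t ^ 4 * z ^ 4 - 32 * t ^ 2 * z ^ 6 + z ^ 8 -
            z ^ 8) * (128 * t ^ 8 - 256 * t ^ 6 * z ^ 2 + 160 * t ^ 4 * z ^ 4 -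
            32 * t ^ 2 * z ^ 6 + z ^ 8 + z ^ 8) = 0 := by
        intro t ht
        have e : (128 * t ^ 8 - 256 * t ^ 6 * z ^ 2 + 160 * t ^ 4 * z ^ 4 - 32 * t ^ 2 * z ^ 6 +
            z ^ 8 - z ^ 8) * (128 * t ^ 8 - 256 * t ^ 6 * z ^ 2 + 160 * t ^ 4 * z ^ 4 -
            32 * t ^ 2 * z ^ 6 + z ^ 8 + z ^ 8) = (t ^ 2 - z ^ 2) * ((1024 * t ^ 7 -
            1536 * t ^ 5 * z ^ 2 + 640 * t ^ 3 * z ^ 4 - 64 * t * z ^ 6) / 8) ^ 2 := by ring
        rw [e, ht]
        ring
      have hz8 : z ^ 8 ≠ 0 := pow_ne_zero _ hz0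
      rcases mul_eq_zero.mp (key x k0) with a1 | a1 <;>
        rcases mul_eq_zero.mp (key y k1) with a2 | a2
      · apply hz8
        linear_combination (2 / 5) * h - (2 / 5) * a1 - (2 / 5) * a2
      · apply hz8
        linear_combination 2 * h - 2 * a1 - 2 * a2
      · apply hz8
        linear_combination 2 * h - 2 * a1 - 2 * a2
      · apply hz8
        linear_combination (-2 / 3) * h + (2 / 3) * a1 + (2 / 3) * a2
  · intro v hv h2 h
    rw [hE] at h
    simp only [map_add, map_mul, map_pow, eval_X, eval_C, h2] at h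
    have h8 : v 0 ^ 8 + v 1 ^ 8 = 0 := by linear_combination h / 128
    have p0 : 0 ≤ v 0 ^ 8 := by positivity
    have p1 : 0 ≤ v 1 ^ 8 := by positivity
    have q0 : v 0 ^ 8 = 0 := by linarith
    have q1 : v 1 ^ 8 = 0 := by linarith
    apply hv
    funext i
    fin_cases i
    · exact pow_eq_zero_iff (by norm_num) |>.mp q0
    · exact pow_eq_zero_iff (by norm_num) |>.mp q1
    · exact h2

end Pool.Agent.L7h4.OS
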